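import Pool.Agent.D0H58.AB.DPrimes

/-! Denominators and the radical of `p`. -/

set_option autoImplicit false
set_option linter.unusedSectionVars false

open Polynomial

namespace Pool.Agent.D0H58.AD

open Pool.Agent.D0H58.OR (split_low norm_int)
open Pool.Agent.D0H58.AB (key_radical)

/-- a nonzero integral polynomial is nonzero modulo large primes -/
lemma not_mem_large {s : ℕ} (y : MvPolynomial (Fin s) ℤ) (hy : y ≠ 0) :
    ∃ M : ℕ, ∀ p : ℕ, M ≤ p →
      y ∉ Ideal.span {(MvPolynomial.C (p : ℤ) : MvPolynomial (Fin s) ℤ)} := by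
  obtain ⟨m, hm⟩ := MvPolynomial.ne_zero_iff.1 hy
  refine ⟨(MvPolynomial.coeff m y).natAbs + 1, fun p hp h => ?_⟩
  rw [Ideal.mem_span_singleton, MvPolynomial.C_dvd_iff_dvd_coeff] at h
  have h1 := h m
  have h2 := Int.natAbs_dvd_natAbs.2 h1
  rw [Int.natAbs_natCast] at h2
  have := Nat.le_of_dvd (Int.natAbs_pos.2 hm) h2
  omega

/-- a nonzero element has a nonzero multiple in the polynomial ring -/
lemma exists_multiple {R B : Type*} [CommRing R] [IsDomain R] [CommRing B] (φ : B →+* R)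
    (b : R) (hb : b ≠ 0) (Q : B[X]) (hQ : Q.Monic) (h : Q.eval₂ φ b = 0) :
    ∃ (w : R) (y : B), y ≠ 0 ∧ b * w = φ y := by
  classical
  have hnt : Nontrivial B := φ.domain_nontrivial
  have hex : ∃ i, Q.coeff i ≠ 0 := ⟨Q.natDegree, by
    have : Q.coeff Q.natDegree = 1 := hQ
    rw [this]; exact one_ne_zero⟩
  obtain ⟨v, hvdef⟩ : ∃ v, v = Nat.find hex := ⟨_, rfl⟩
  have hvs : Q.coeff v ≠ 0 := by rw [hvdef]; exact Nat.find_spec hex
  obtain ⟨H, hH1, hH2⟩ := split_low φ (⊥ : Ideal B) (⊥ : Ideal R) (by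
    intro x hx
    rw [Ideal.mem_bot] at hx ⊢
    rw [hx, map_zero]) b Q v (fun i hi => by
      rw [hvdef] at hi
      have := Nat.find_min hex hi
      push Not at this
      rw [this]; exact Ideal.zero_mem _)
  rw [h, zero_sub, Ideal.mem_bot, neg_eq_zero] at hH2
  have h1 : H.eval₂ φ b = 0 := (mul_eq_zero.1 hH2).resolve_left (pow_ne_zero _ hb)
  have e1 : H.eval₂ φ b = H.divX.eval₂ φ b * b + φ (H.coeff 0) := by
    conv_lhs => rw [← divX_mul_X_add H]
    rw [eval₂_add, eval₂_mul_X, eval₂_C]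
  refine ⟨-H.divX.eval₂ φ b, H.coeff 0, ?_, ?_⟩
  · rw [hH1, zero_add]; exact hvs
  · rw [h1] at e1
    linear_combination e1

/-- A nonzero element is not a zero divisor modulo the radical of `p`, for large `p`. -/
theorem radical_large (R : Type*) [CommRing R] [IsDomain R] [CharZero R] [Algebra.FiniteType ℤ R]
    (b : R) (hb : b ≠ 0) :
    ∃ M : ℕ, ∀ p : ℕ, M ≤ p → p.Prime → ∀ (z : R) (n : ℕ), b ^ n * z ∈ Ideal.span {(p : R)} →
      z ∈ (Ideal.span {(p : R)}).radical := by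
  classical
  obtain ⟨s, φ, hφ, N, d, hN, hnorm⟩ := norm_int R
  obtain ⟨a, Q, hQ1, -, hQ3⟩ := hnorm b
  have hNR : (N : R) ≠ 0 := Nat.cast_ne_zero.2 hN
  obtain ⟨w, y, hy, hwy⟩ := exists_multiple φ ((N : R) ^ a * b)
    (mul_ne_zero (pow_ne_zero _ hNR) hb) Q hQ1 hQ3
  obtain ⟨M, hM⟩ := not_mem_large y hy
  refine ⟨M + N + 1, fun p hp hpp z n hz => ?_⟩
  have hNp : Nat.Coprime N p := by
    rw [Nat.coprime_comm, Nat.Prime.coprime_iff_not_dvd hpp]
    intro hd
    have := Nat.le_of_dvd (Nat.pos_of_ne_zero hN) hd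
    omega
  have hpr : Prime (MvPolynomial.C (p : ℤ) : MvPolynomial (Fin s) ℤ) :=
    (MvPolynomial.prime_C_iff _).2 (Nat.prime_iff_prime_int.1 hpp)
  have hq : (Ideal.span {(MvPolynomial.C (p : ℤ) : MvPolynomial (Fin s) ℤ)}).IsPrime :=
    (Ideal.span_singleton_prime hpr.ne_zero).2 hpr
  obtain ⟨x, hx⟩ := Ideal.mem_span_singleton'.1 hz
  refine key_radical φ hφ N d hnorm p hpp hNp z (((N : R) ^ a * w) ^ n * x) (y ^ n) ?_ ?_
  · intro h
    exact hM p (by omega) (hq.mem_of_pow_mem _ h)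
  · rw [map_pow, ← hwy]
    have e1 : z * ((N : R) ^ a * b * w) ^ n = ((N : R) ^ a * w) ^ n * (b ^ n * z) := by
      rw [mul_pow, mul_pow, mul_pow]; ring
    rw [e1, ← hx]
    ring

/-- a common denominator -/
lemma common_denominator {k : Type*} [Field k] (T : Finset k)
    (R : Subalgebra ℤ (Subfield.closure (T : Set k))) (hR : R.FG) :
    ∃ b : k, b ∈ Algebra.adjoin ℤ (T : Set k) ∧ b ≠ 0 ∧ ∀ x ∈ R, ∃ n : ℕ,
      b ^ n * (x : k) ∈ Algebra.adjoin ℤ (T : Set k) := by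
  classical
  obtain ⟨S, hS⟩ := hR
  have hsub : ∀ x : k, x ∈ Subring.closure (T : Set k) → x ∈ Algebra.adjoin ℤ (T : Set k) := by
    intro x hx
    have h1 : Subring.closure (T : Set k) ≤ (Algebra.adjoin ℤ (T : Set k)).toSubring :=
      Subring.closure_le.2 Algebra.subset_adjoin
    exact h1 hx
  have hfrac : ∀ x : Subfield.closure (T : Set k), ∃ y : k, y ∈ Algebra.adjoin ℤ (T : Set k) ∧
      y ≠ 0 ∧ y * (x : k) ∈ Algebra.adjoin ℤ (T : Set k) := by
    intro x
    obtain ⟨u, hu, v, hv, huv⟩ := Subfield.mem_closure_iff.1 x.2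
    by_cases hv0 : v = 0
    · refine ⟨1, Subalgebra.one_mem _, one_ne_zero, ?_⟩
      rw [← huv, hv0, div_zero, mul_zero]
      exact Subalgebra.zero_mem _
    · refine ⟨v, hsub v hv, hv0, ?_⟩
      rw [← huv, mul_div_cancel₀ _ hv0]
      exact hsub u hu
  choose y hy1 hy2 hy3 using hfrac
  obtain ⟨b, hb⟩ : ∃ b : k, b = ∏ x ∈ S, y x := ⟨_, rfl⟩
  have hbA : b ∈ Algebra.adjoin ℤ (T : Set k) := by
    rw [hb]; exact Subalgebra.prod_mem _ fun x _ => hy1 x
  refine ⟨b, hbA, ?_, ?_⟩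
  · rw [hb]; exact Finset.prod_ne_zero_iff.2 fun x _ => hy2 x
  · intro x hx
    rw [← hS] at hx
    induction hx using Algebra.adjoin_induction with
    | mem x hx =>
      refine ⟨1, ?_⟩
      rw [pow_one, hb, ← Finset.prod_erase_mul S y hx, mul_assoc]
      exact Subalgebra.mul_mem _ (Subalgebra.prod_mem _ fun x _ => hy1 x) (hy3 x)
    | algebraMap z =>
      refine ⟨0, ?_⟩
      have : ((algebraMap ℤ (Subfield.closure (T : Set k)) z : Subfield.closure (T : Set k)) : k) =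
          (z : k) := by simp
      rw [this, pow_zero, one_mul]
      exact intCast_mem _ z
    | add u v _ _ hu hv =>
      obtain ⟨n1, h1⟩ := hu
      obtain ⟨n2, h2⟩ := hv
      refine ⟨n1 + n2, ?_⟩
      have : b ^ (n1 + n2) * ((u + v : Subfield.closure (T : Set k)) : k) =
          b ^ n2 * (b ^ n1 * u) + b ^ n1 * (b ^ n2 * v) := by
        push_cast; ring
      rw [this]
      exact Subalgebra.add_mem _ (Subalgebra.mul_mem _ (Subalgebra.pow_mem _ hbA _) h1)
        (Subalgebra.mul_mem _ (Subalgebra.pow_mem _ hbA _) h2)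
    | mul u v _ _ hu hv =>
      obtain ⟨n1, h1⟩ := hu
      obtain ⟨n2, h2⟩ := hv
      refine ⟨n1 + n2, ?_⟩
      have : b ^ (n1 + n2) * ((u * v : Subfield.closure (T : Set k)) : k) =
          (b ^ n1 * u) * (b ^ n2 * v) := by
        push_cast; ring
      rw [this]
      exact Subalgebra.mul_mem _ h1 h2

end Pool.Agent.D0H58.AD
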