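import Pool.Agent.D0H58.AD.Null

/-! General position at the generic point of a differential prime ideal, and at closed points. -/

set_option autoImplicit false
set_option linter.unusedSectionVars false

universe u

open MvPolynomial

namespace Pool.Agent.D0H58.AD

open Pool.Agent.D0H58.OR (pr)

/-- the span of the image of a set of vectors -/
def img {A K : Type*} [CommRing A] [Field K] (f : A →+* K) {n : ℕ} (W : Set (Fin n → A)) :
    Submodule K (Fin n → K) :=
  Submodule.span K ((fun v i => f (v i)) '' W)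

lemma kill_img {A K : Type*} [CommRing A] [Field K] (f : A →+* K) {n : ℕ} (W : Set (Fin n → A))
    (u : Fin n → K) (h : ∀ v ∈ W, ∑ t, u t * f (v t) = 0) (x : Fin n → K) (hx : x ∈ img f W) :
    ∑ t, u t * x t = 0 := by
  unfold img at hx
  induction hx using Submodule.span_induction with
  | mem x hx =>
    obtain ⟨v, hv, rfl⟩ := hx
    exact h v hv
  | zero => simp
  | add x y _ _ hx hy =>
    simp only [Pi.add_apply, mul_add, Finset.sum_add_distrib]
    rw [hx, hy, add_zero]
  | smul c x _ hx =>
    have : ∑ t, u t * (c • x) t = c * ∑ t, u t * x t := by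
      rw [Finset.mul_sum]
      refine Finset.sum_congr rfl fun t _ => ?_
      rw [Pi.smul_apply, smul_eq_mul]
      ring
    rw [this, hx, mul_zero]

/-- linear combinations -/
def combL {K : Type*} [Field K] {n r : ℕ} (w : Fin r → Fin n → K) :
    (Fin r → K) →ₗ[K] (Fin n → K) where
  toFun c t := ∑ j, c j * w j t
  map_add' c d := by
    funext t
    simp [add_mul, Finset.sum_add_distrib]
  map_smul' e c := by
    funext t
    simp [Finset.mul_sum, mul_assoc]

/-- independent functionals which kill a subspace -/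
lemma exists_functionals {K : Type*} [Field K] {n s : ℕ} (V : Submodule K (Fin n → K))
    (h : Module.finrank K V + s ≤ n) : ∃ μ : Fin s → Fin n → K, LinearIndependent K μ ∧
      ∀ i, ∀ x ∈ V, ∑ t, μ i t * x t = 0 := by
  classical
  have h1 := Subspace.finrank_add_finrank_dualAnnihilator_eq V
  rw [Module.finrank_fin_fun] at h1
  have h2 : s ≤ Module.finrank K V.dualAnnihilator := by omega
  obtain ⟨f, hf⟩ := exists_linearIndependent_of_le_finrank h2
  have hsum : ∀ (φ : Module.Dual K (Fin n → K)) (x : Fin n → K),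
      φ x = ∑ t, φ (Pi.single t 1) * x t := by
    intro φ x
    conv_lhs => rw [← Finset.univ_sum_single x]
    rw [map_sum]
    refine Finset.sum_congr rfl fun j _ => ?_
    have : (Pi.single j (x j) : Fin n → K) = x j • Pi.single j 1 := by
      rw [← Pi.single_smul]; simp
    rw [this, map_smul, smul_eq_mul, mul_comm]
  refine ⟨fun i t => (f i).1 (Pi.single t 1), ?_, fun i x hx => ?_⟩
  · rw [Fintype.linearIndependent_iff]
    intro c hc i
    refine (Fintype.linearIndependent_iff (R := K) (v := f)).1 hf c ?_ i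
    apply Subtype.ext
    apply LinearMap.ext
    intro x
    rw [hsum]
    have h3 : ∀ t, ((∑ i, c i • f i : V.dualAnnihilator) : Module.Dual K (Fin n → K))
        (Pi.single t 1) = 0 := by
      intro t
      have h4 := congrFun hc t
      simp only [Finset.sum_apply, Pi.smul_apply, smul_eq_mul, Pi.zero_apply] at h4
      rw [← h4]
      simp
    refine Finset.sum_eq_zero fun t _ => ?_
    rw [h3 t, zero_mul]
  · rw [← hsum]
    exact (Submodule.mem_dualAnnihilator _).1 (f i).2 x hx

/-- general position at the generic point of a differential prime ideal -/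
lemma loc {k E : Type u} {L : Type*} [Field k] [IsAlgClosed k] [Field E] [Algebra E k]
    [Fintype L] {A : Type u} [CommRing A] (iE : A →+* E) {n q r s : ℕ} (dA : Dat A L n q)
    (Φ : Set (MvPolynomial (Fin s × Fin n) A))
    (h : Big ((dA.map iE).map (algebraMap E k)) r s (map (algebraMap E k) '' (map iE '' Φ))) :
    ∃ (C : Finset E) (Δ : Finset (Derivation ℤ E E)), ∀ (R S K : Type u) [CommRing R] [CommRing S]
      [IsDomain S] [Field K] [Algebra S K] [IsFractionRing S K] (iR : R →+* E)
      (_ : Function.Injective iR) (π : R →+* S) (iA : A →+* R) (_ : iR.comp iA = iE)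
      (W : Set (Fin n → A)),
      (∀ c ∈ C, ∃ x, iR x = c) →
      (∀ D ∈ Δ, ∃ (DR : Derivation ℤ R R) (DS : Derivation ℤ S S),
        (∀ x, iR (DR x) = D (iR x)) ∧ (∀ x, π (DR x) = DS (π x)) ∧
        ∀ v ∈ W, (fun i => algebraMap S K (DS (π (iA (v i))) +
          ∑ j, gam (dA.map (π.comp iA)) DS i j * π (iA (v j)))) ∈
            img ((algebraMap S K).comp (π.comp iA)) W) →
      Module.finrank K (img ((algebraMap S K).comp (π.comp iA)) W) + s ≤ n →
      (∀ μ : Fin s → Fin n → K, LinearIndependent K μ →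
        (∀ i, ∀ v ∈ W, ∑ t, μ i t * algebraMap S K (π (iA (v t))) = 0) →
        ∀ P ∈ Φ, eval₂ ((algebraMap S K).comp (π.comp iA)) (fun x => μ x.1 x.2) P = 0) →
      ∃ g : Fin r → Fin q, ∀ c : Fin r → K,
        (fun t => ∑ j, c j * algebraMap S K (π (iA (dA.ω (g j) t)))) ∈
        img ((algebraMap S K).comp (π.comp iA)) W → c = 0 := by
  classical
  obtain ⟨C, Δ, hCΔ⟩ := big_good (dA.map iE) (map iE '' Φ) h
  refine ⟨C, Δ, ?_⟩
  intro R S K _ _ _ _ _ _ iR hiR π iA hiA W hC hD hcod hrel
  by_contra hcon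
  push Not at hcon
  have hinj : Function.Injective (algebraMap S K) := IsFractionRing.injective S K
  obtain ⟨Z, hZ⟩ : ∃ Z : Set (Fin n → S), ∀ u, u ∈ Z ↔ ∀ v ∈ W, ∑ t, u t * π (iA (v t)) = 0 :=
    ⟨{u | ∀ v ∈ W, ∑ t, u t * π (iA (v t)) = 0}, fun _ => Iff.rfl⟩
  have hZK : ∀ u ∈ Z, ∀ x ∈ img ((algebraMap S K).comp (π.comp iA)) W,
      ∑ t, algebraMap S K (u t) * x t = 0 := by
    intro u hu x hx
    refine kill_img _ W (fun t => algebraMap S K (u t)) (fun v hv => ?_) x hx
    have h1 := congrArg (algebraMap S K) ((hZ u).1 hu v hv)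
    rw [map_sum, map_zero] at h1
    rw [← h1]
    refine Finset.sum_congr rfl fun t _ => ?_
    rw [map_mul]
    rfl
  have hvol : ∀ (g : Fin r → Fin q) (u : Fin r → Fin n → S), (∀ i, u i ∈ Z) →
      pr u (vol fun j => ((dA.map iA).map π).ω (g j)) = 0 := by
    intro g u hu
    obtain ⟨c, hc, hc0⟩ := hcon g
    rw [pr_vol]
    apply hinj
    rw [map_zero, RingHom.map_det]
    apply Matrix.exists_mulVec_eq_zero_iff.1
    refine ⟨c, hc0, ?_⟩
    funext i
    have h1 := hZK (u i) (hu i) _ hc
    rw [Pi.zero_apply, ← h1]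
    simp only [Matrix.mulVec, dotProduct, RingHom.mapMatrix_apply, Matrix.map_apply,
      Matrix.of_apply, map_sum, map_mul, Finset.sum_mul, Finset.mul_sum]
    rw [Finset.sum_comm]
    refine Finset.sum_congr rfl fun t _ => Finset.sum_congr rfl fun j _ => ?_
    simp only [Dat.map]
    ring
  obtain ⟨Y, hY1, hY2, hY3, hY4⟩ : ∃ Y : Spec (dA.map iE) r R S, Y.iR = iR ∧ Y.π = π ∧
      Y.dR = dA.map iA ∧ Y.Z = Z :=
    ⟨{ iR := iR
       hiR := hiR
       π := π
       dR := dA.map iA
       hdR := by rw [← hiA]; rfl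
       Z := Z
       hvol := hvol }, rfl, rfl, rfl, rfl⟩
  -- the functionals
  obtain ⟨μ, hμ1, hμ2⟩ := exists_functionals _ hcod
  obtain ⟨b, hb⟩ := IsLocalization.exist_integer_multiples_of_finite (nonZeroDivisors S)
    (fun x : Fin s × Fin n => μ x.1 x.2)
  choose pt hpt using hb
  have hpt' : ∀ i t, algebraMap S K (pt (i, t)) = algebraMap S K b * μ i t := by
    intro i t
    rw [hpt, Algebra.smul_def]
  have hb0 : algebraMap S K b ≠ 0 := by
    intro h0
    exact nonZeroDivisors.ne_zero b.2 (hinj (h0.trans (map_zero _).symm))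
  have hptli : LinearIndependent K fun i t => algebraMap S K (pt (i, t)) := by
    rw [Fintype.linearIndependent_iff] at hμ1 ⊢
    intro e he i
    refine hμ1 e ?_ i
    funext t
    have h1 := congrFun he t
    simp only [Finset.sum_apply, Pi.smul_apply, smul_eq_mul, Pi.zero_apply, hpt'] at h1 ⊢
    apply mul_left_cancel₀ hb0
    rw [mul_zero, ← h1, Finset.mul_sum]
    refine Finset.sum_congr rfl fun j _ => ?_
    ring
  have hptk : ∀ i, ∀ v ∈ W, ∑ t, algebraMap S K (pt (i, t)) *
      algebraMap S K (π (iA (v t))) = 0 := by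
    intro i v hv
    have h1 := hμ2 i (fun t => algebraMap S K (π (iA (v t))))
      (Submodule.subset_span ⟨v, hv, rfl⟩)
    simp only [hpt', mul_assoc]
    rw [← Finset.mul_sum, h1, mul_zero]
  have hptZ : ∀ i, (fun t => pt (i, t)) ∈ Z := by
    intro i
    rw [hZ]
    intro v hv
    apply hinj
    rw [map_zero, map_sum, ← hptk i v hv]
    refine Finset.sum_congr rfl fun t _ => ?_
    rw [map_mul]
  refine hCΔ R S K (algebraMap S K) Y pt ?_ hptli ?_ ?_
  · intro i
    rw [hY4]
    exact hptZ i
  · rintro _ ⟨P, hP, rfl⟩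
    refine ⟨map iA P, ?_, ?_⟩
    · rw [hY1, map_map, hiA]
    · rw [hY2, eval₂_map]
      apply hinj
      have h1 := hrel (fun i t => algebraMap S K (pt (i, t))) hptli hptk P hP
      rw [map_zero, ← h1, hom_eval₂]
  · refine ⟨fun x hx => by rw [hY1]; exact hC x hx, fun D hDΔ => ?_⟩
    obtain ⟨DR, DS, h1, h2, h3⟩ := hD D hDΔ
    refine ⟨DR, DS, fun x => by rw [hY1]; exact h1 x, fun x => by rw [hY2]; exact h2 x, ?_⟩
    intro u hu
    rw [hY4] at hu ⊢
    rw [hY3, hY2, hZ]
    intro v hv
    apply hinj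
    have h4 := hZK u hu _ (h3 v hv)
    have h5 := (hZ u).1 hu v hv
    have h6 := congrArg DS h5
    rw [map_zero, map_sum] at h6
    have h7 : ∑ t, dual ((dA.map iA).map π) DS u t * π (iA (v t)) =
        ∑ t, DS (u t * π (iA (v t))) - ∑ i, u i * (DS (π (iA (v i))) +
          ∑ j, gam (dA.map (π.comp iA)) DS i j * π (iA (v j))) := by
      have e1 : ∑ i, u i * (DS (π (iA (v i))) +
          ∑ j, gam (dA.map (π.comp iA)) DS i j * π (iA (v j))) =
          ∑ i, u i * DS (π (iA (v i))) + ∑ t, (∑ i, u i * gam (dA.map (π.comp iA)) DS i t) *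
            π (iA (v t)) := by
        simp only [mul_add, Finset.sum_add_distrib, Finset.mul_sum, Finset.sum_mul]
        congr 1
        rw [Finset.sum_comm]
        refine Finset.sum_congr rfl fun t _ => Finset.sum_congr rfl fun i _ => ?_
        ring
      rw [e1, ← sub_sub, ← Finset.sum_sub_distrib, ← Finset.sum_sub_distrib]
      refine Finset.sum_congr rfl fun t _ => ?_
      rw [Derivation.leibniz, smul_eq_mul, smul_eq_mul]
      unfold dual
      have e2 : (dA.map iA).map π = dA.map (π.comp iA) := rfl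
      rw [e2]
      ring
    rw [h7, h6, zero_sub, map_neg, map_zero, neg_eq_zero, map_sum, ← h4]
    refine Finset.sum_congr rfl fun t _ => ?_
    rw [map_mul]

/-- general position at the points of an open subset -/
lemma spread_out {A K : Type*} [CommRing A] [Field K] (f : A →+* K) {n r : ℕ}
    (W : Set (Fin n → A)) (ω : Fin r → Fin n → A)
    (h : ∀ c : Fin r → K, (fun t => ∑ j, c j * f (ω j t)) ∈ img f W → c = 0) :
    ∃ a : A, f a ≠ 0 ∧ ∀ (κ : Type*) [Field κ] (g : A →+* κ), (∀ x, f x = 0 → g x = 0) →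
      g a ≠ 0 → ∀ c : Fin r → κ, (fun t => ∑ j, c j * g (ω j t)) ∈ img g W → c = 0 := by
  classical
  obtain ⟨P, hPdef⟩ : ∃ P : Ideal A, P = RingHom.ker f := ⟨_, rfl⟩
  have hP : P.IsPrime := by rw [hPdef]; exact RingHom.ker_isPrime f
  let K1 := FractionRing (A ⧸ P)
  obtain ⟨f1, hf1⟩ : ∃ f1 : A ⧸ P →+* K, ∀ x, f1 (Ideal.Quotient.mk P x) = f x :=
    ⟨Ideal.Quotient.lift P f (fun x hx => by rw [hPdef] at hx; exact hx), fun x => rfl⟩
  have hf1inj : Function.Injective f1 := by
    rw [injective_iff_map_eq_zero]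
    intro y hy
    obtain ⟨x, rfl⟩ := Ideal.Quotient.mk_surjective y
    rw [hf1] at hy
    rw [Ideal.Quotient.eq_zero_iff_mem, hPdef]
    exact hy
  obtain ⟨ψ, hψ⟩ : ∃ ψ : K1 →+* K, ∀ y, ψ (algebraMap (A ⧸ P) K1 y) = f1 y :=
    ⟨IsFractionRing.lift hf1inj, fun y => IsFractionRing.lift_algebraMap hf1inj y⟩
  obtain ⟨q, hq⟩ : ∃ q : A →+* K1, ∀ x, q x = algebraMap (A ⧸ P) K1 (Ideal.Quotient.mk P x) :=
    ⟨(algebraMap (A ⧸ P) K1).comp (Ideal.Quotient.mk P), fun _ => rfl⟩
  have hψq : ∀ x, ψ (q x) = f x := fun x => by rw [hq, hψ, hf1]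
  -- general position over `K1`
  have h1 : ∀ c : Fin r → K1, (fun t => ∑ j, c j * q (ω j t)) ∈ img q W → c = 0 := by
    intro c hc
    have h2 : ∀ x ∈ img q W, (fun t => ψ (x t)) ∈ img f W := by
      intro x hx
      unfold img at hx
      induction hx using Submodule.span_induction with
      | mem x hx =>
        obtain ⟨v, hv, rfl⟩ := hx
        refine Submodule.subset_span ⟨v, hv, ?_⟩
        funext t
        exact (hψq _).symm
      | zero =>
        have : (fun t => ψ ((0 : Fin n → K1) t)) = 0 := by funext t; simp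
        rw [this]; exact Submodule.zero_mem _
      | add x y _ _ hx hy =>
        have : (fun t => ψ ((x + y) t)) = (fun t => ψ (x t)) + fun t => ψ (y t) := by
          funext t; simp
        rw [this]; exact Submodule.add_mem _ hx hy
      | smul e x _ hx =>
        have : (fun t => ψ ((e • x) t)) = ψ e • fun t => ψ (x t) := by
          funext t; simp
        rw [this]; exact Submodule.smul_mem _ _ hx
    have h3 := h2 _ hc
    have h4 := h (fun j => ψ (c j)) (by
      have e : (fun t => ∑ j, ψ (c j) * f (ω j t)) = fun t => ψ (∑ j, c j * q (ω j t)) := by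
        funext t
        rw [map_sum]
        refine Finset.sum_congr rfl fun j _ => ?_
        rw [map_mul, hψq]
      rw [e]
      exact h3)
    funext j
    apply ψ.injective
    have := congrFun h4 j
    rw [Pi.zero_apply] at this ⊢
    rw [this, map_zero]
  -- a left inverse
  obtain ⟨Q, hQ⟩ : ∃ Q : (Fin r → K1) →ₗ[K1] ((Fin n → K1) ⧸ img q W), ∀ c,
      Q c = (img q W).mkQ (fun t => ∑ j, c j * q (ω j t)) := by
    exact ⟨(img q W).mkQ ∘ₗ combL fun j t => q (ω j t), fun c => rfl⟩
  have hQinj : LinearMap.ker Q = ⊥ := by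
    rw [LinearMap.ker_eq_bot']
    intro c hc
    rw [hQ] at hc
    apply h1
    exact (Submodule.Quotient.mk_eq_zero _).1 hc
  obtain ⟨G, hG⟩ := Q.exists_leftInverse_of_injective hQinj
  -- the functionals
  obtain ⟨μ, hμ⟩ : ∃ μ : Fin r → Fin n → K1, ∀ i (x : Fin n → K1),
      G ((img q W).mkQ x) i = ∑ t, μ i t * x t := by
    refine ⟨fun i t => G ((img q W).mkQ (Pi.single t 1)) i, fun i x => ?_⟩
    conv_lhs => rw [← Finset.univ_sum_single x]
    rw [map_sum, map_sum, Finset.sum_apply]
    refine Finset.sum_congr rfl fun j _ => ?_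
    have : (Pi.single j (x j) : Fin n → K1) = x j • Pi.single j 1 := by
      rw [← Pi.single_smul]; simp
    rw [this, map_smul, map_smul, Pi.smul_apply, smul_eq_mul, mul_comm]
  obtain ⟨b, hb⟩ := IsLocalization.exist_integer_multiples_of_finite (nonZeroDivisors (A ⧸ P))
    (fun x : Fin r × Fin n => μ x.1 x.2)
  choose pt' hpt' using hb
  choose pt hpt using fun x => Ideal.Quotient.mk_surjective (pt' x)
  obtain ⟨a, ha⟩ := Ideal.Quotient.mk_surjective (b : A ⧸ P)
  have hqa : q a ≠ 0 := by
    rw [hq, ha]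
    intro h0
    exact nonZeroDivisors.ne_zero b.2 (IsFractionRing.injective (A ⧸ P) K1
      (h0.trans (map_zero _).symm))
  have hqpt : ∀ i t, q (pt (i, t)) = q a * μ i t := by
    intro i t
    rw [hq, hpt, hpt', hq, ha, Algebra.smul_def]
  have hq0 : ∀ x, q x = 0 → f x = 0 := by
    intro x hx
    rw [← hψq, hx, map_zero]
  have hkill : ∀ i, ∀ v ∈ W, f (∑ t, pt (i, t) * v t) = 0 := by
    intro i v hv
    apply hq0
    have h2 : G ((img q W).mkQ fun t => q (v t)) i = 0 := by
      have : (img q W).mkQ (fun t => q (v t)) = 0 :=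
        (Submodule.Quotient.mk_eq_zero _).2 (Submodule.subset_span ⟨v, hv, rfl⟩)
      rw [this, map_zero]; rfl
    rw [hμ] at h2
    rw [map_sum]
    simp only [map_mul, hqpt, mul_assoc]
    rw [← Finset.mul_sum, h2, mul_zero]
  have hω : ∀ i j, f (∑ t, pt (i, t) * ω j t - if i = j then a else 0) = 0 := by
    intro i j
    apply hq0
    have h2 : G (Q (Pi.single j 1)) i = (Pi.single j 1 : Fin r → K1) i := by
      have := LinearMap.congr_fun hG (Pi.single j 1)
      exact congrFun this i
    rw [hQ, hμ] at h2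
    have h3 : ∀ t, ∑ j', (Pi.single j 1 : Fin r → K1) j' * q (ω j' t) = q (ω j t) := by
      intro t
      rw [Finset.sum_eq_single j]
      · rw [Pi.single_eq_same, one_mul]
      · intro j' _ hj'
        rw [Pi.single_eq_of_ne hj', zero_mul]
      · intro h4; exact absurd (Finset.mem_univ _) h4
    simp only [h3] at h2
    rw [map_sub, map_sum]
    simp only [map_mul, hqpt, mul_assoc]
    rw [← Finset.mul_sum, h2]
    by_cases hij : i = j
    · subst hij
      rw [if_pos rfl, Pi.single_eq_same, mul_one, sub_self]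
    · rw [if_neg hij, Pi.single_eq_of_ne hij, mul_zero, map_zero, sub_self]
  have hfa : f a ≠ 0 := by
    intro h0
    apply hqa
    apply ψ.injective
    rw [hψq, h0, map_zero]
  refine ⟨a, hfa, ?_⟩
  intro κ _ g hg hga c hc
  funext i
  rw [Pi.zero_apply]
  have h2 := kill_img g W (fun t => g (pt (i, t))) (fun v hv => by
    have := hg _ (hkill i v hv)
    rw [map_sum] at this
    rw [← this]
    refine Finset.sum_congr rfl fun t _ => ?_
    rw [map_mul]) _ hc
  have h3 : ∀ j, ∑ t, g (pt (i, t)) * g (ω j t) = if i = j then g a else 0 := by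
    intro j
    have := hg _ (hω i j)
    rw [map_sub, map_sum, sub_eq_zero] at this
    simp only [map_mul] at this
    rw [this]
    split_ifs
    · rfl
    · exact map_zero g
  have h4 : ∑ t, g (pt (i, t)) * ∑ j, c j * g (ω j t) = g a * c i := by
    have e1 : ∑ t, g (pt (i, t)) * ∑ j, c j * g (ω j t) =
        ∑ j, c j * ∑ t, g (pt (i, t)) * g (ω j t) := by
      simp only [Finset.mul_sum]
      rw [Finset.sum_comm]
      refine Finset.sum_congr rfl fun t _ => Finset.sum_congr rfl fun j _ => ?_
      ring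
    rw [e1]
    simp only [h3]
    rw [Finset.sum_eq_single i]
    · rw [if_pos rfl]; ring
    · intro j _ hj
      rw [if_neg hj.symm, mul_zero]
    · intro h5; exact absurd (Finset.mem_univ _) h5
  rw [h4] at h2
  exact (mul_eq_zero.1 h2).resolve_left hga

end Pool.Agent.D0H58.AD
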