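import Pool.Agent.D0H58.AD.Loc

/-! General position by isometries of a nondegenerate bilinear form. -/

set_option autoImplicit false
set_option linter.unusedSectionVars false

open Matrix Module

namespace Pool.Agent.D0H58.AD

open Pool.Agent.D0H58.OR (exists_dep)

section

variable {k : Type*} [Field k] {n : ℕ}

/-- the map `y ↦ y + (l y) v` -/
def trv (v l : Fin n → k) : Matrix (Fin n) (Fin n) k := 1 + vecMulVec v l

lemma trv_mulVec (v l y : Fin n → k) : trv v l *ᵥ y = y + (l ⬝ᵥ y) • v := by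
  unfold trv
  rw [add_mulVec, one_mulVec, vecMulVec_mulVec]
  congr 1
  funext i
  simp [mul_comm]

lemma trv_det (v l : Fin n → k) : (trv v l).det = 1 + l ⬝ᵥ v := by
  unfold trv
  rw [vecMulVec_eq Unit, det_one_add_replicateCol_mul_replicateRow]

lemma trv_iso (B : Matrix (Fin n) (Fin n) k) (v l : Fin n → k)
    (h : ∀ i j, l i * (v ᵥ* B) j + (B *ᵥ v) i * l j + (v ⬝ᵥ B *ᵥ v) * (l i * l j) = 0) :
    (trv v l)ᵀ * B * trv v l = B := by
  have e1 : (trv v l)ᵀ * B * trv v l = B + (vecMulVec l (v ᵥ* B) + vecMulVec (B *ᵥ v) l +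
      (v ⬝ᵥ B *ᵥ v) • vecMulVec l l) := by
    unfold trv
    rw [transpose_add, transpose_one, transpose_vecMulVec, add_mul, one_mul, vecMulVec_mul, mul_add,
      mul_one, add_mul, mul_vecMulVec, vecMulVec_mul_vecMulVec, vecMulVec_smul, ← dotProduct_mulVec]
    abel
  rw [e1]
  ext i j
  simp only [Matrix.add_apply, Matrix.smul_apply, vecMulVec_apply, smul_eq_mul]
  rw [h i j, add_zero]

/-- the reduction of the intersection -/
lemma trv_inter (F U : Submodule k (Fin n → k)) (v l w : Fin n → k) (hv : v ∉ F ⊔ U)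
    (hw : w ∈ F ⊓ U) (hlw : l ⬝ᵥ w ≠ 0) :
    F.map (trv v l).mulVecLin ⊓ U < F ⊓ U := by
  have key : ∀ y ∈ F, (trv v l) *ᵥ y ∈ U → l ⬝ᵥ y = 0 := by
    intro y hy hyU
    by_contra hne
    apply hv
    rw [trv_mulVec] at hyU
    have h1 : (l ⬝ᵥ y) • v ∈ F ⊔ U := by
      have e : (l ⬝ᵥ y) • v = -y + (y + (l ⬝ᵥ y) • v) := by abel
      rw [e]
      exact Submodule.add_mem _ (Submodule.mem_sup_left (F.neg_mem hy)) (Submodule.mem_sup_right hyU)
    exact (Submodule.smul_mem_iff _ hne).1 h1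
  rw [lt_iff_le_and_ne]
  constructor
  · rintro x ⟨⟨y, hy, hyx⟩, hx⟩
    rw [mulVecLin_apply] at hyx
    subst hyx
    have h1 := key y hy hx
    rw [trv_mulVec, h1, zero_smul, add_zero] at hx ⊢
    exact ⟨hy, hx⟩
  · intro heq
    rw [← heq] at hw
    obtain ⟨⟨y, hy, hyx⟩, hx⟩ := hw
    rw [mulVecLin_apply] at hyx
    subst hyx
    have h1 := key y hy hx
    rw [trv_mulVec, h1, zero_smul, add_zero] at hlw
    exact hlw h1

end

section avoid

variable {k : Type*} [Field k] [Infinite k] {n : ℕ}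

lemma avoid (P Q R : MvPolynomial (Fin n) k) (hP : ∃ x, MvPolynomial.eval x P ≠ 0)
    (hQ : ∃ x, MvPolynomial.eval x Q ≠ 0) (hR : ∃ x, MvPolynomial.eval x R ≠ 0) :
    ∃ x, MvPolynomial.eval x P ≠ 0 ∧ MvPolynomial.eval x Q ≠ 0 ∧ MvPolynomial.eval x R ≠ 0 := by
  have h0 : ∀ S : MvPolynomial (Fin n) k, (∃ x, MvPolynomial.eval x S ≠ 0) → S ≠ 0 := by
    rintro S ⟨x, hx⟩ rfl
    exact hx (map_zero _)
  have h1 : P * Q * R ≠ 0 := mul_ne_zero (mul_ne_zero (h0 P hP) (h0 Q hQ)) (h0 R hR)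
  by_contra hcon
  push Not at hcon
  apply h1
  apply MvPolynomial.funext
  intro x
  rw [map_mul, map_mul, map_zero]
  by_cases hp : MvPolynomial.eval x P = 0
  · rw [hp]; ring
  · by_cases hq : MvPolynomial.eval x Q = 0
    · rw [hq]; ring
    · rw [hcon x hp hq, mul_zero]

/-- the linear form -/
noncomputable def linP (c : Fin n → k) : MvPolynomial (Fin n) k :=
  ∑ i, MvPolynomial.C (c i) * MvPolynomial.X i

lemma eval_linP (c x : Fin n → k) : MvPolynomial.eval x (linP c) = c ⬝ᵥ x := by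
  unfold linP
  simp [dotProduct]

/-- the quadratic form -/
noncomputable def quadP (B : Matrix (Fin n) (Fin n) k) : MvPolynomial (Fin n) k :=
  ∑ i, ∑ j, MvPolynomial.C (B i j) * MvPolynomial.X i * MvPolynomial.X j

lemma eval_quadP (B : Matrix (Fin n) (Fin n) k) (x : Fin n → k) :
    MvPolynomial.eval x (quadP B) = x ⬝ᵥ B *ᵥ x := by
  unfold quadP
  simp only [map_sum, map_mul, MvPolynomial.eval_C, MvPolynomial.eval_X, dotProduct, mulVec,
    Finset.mul_sum]
  refine Finset.sum_congr rfl fun i _ => Finset.sum_congr rfl fun j _ => ?_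
  ring

lemma lin_point (c : Fin n → k) (hc : c ≠ 0) : ∃ x, MvPolynomial.eval x (linP c) ≠ 0 := by
  classical
  obtain ⟨i, hi⟩ := Function.ne_iff.1 hc
  refine ⟨Pi.single i 1, ?_⟩
  rw [eval_linP, dotProduct_single, mul_one]
  exact hi

/-- a functional which vanishes on a proper subspace -/
lemma exists_functional (H : Submodule k (Fin n → k)) (hH : H ≠ ⊤) :
    ∃ c : Fin n → k, c ≠ 0 ∧ ∀ x ∈ H, c ⬝ᵥ x = 0 := by
  obtain ⟨μ, h1, h2⟩ := exists_functionals (s := 1) H (by
    have := Submodule.finrank_lt hH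
    rw [finrank_fin_fun] at this
    omega)
  exact ⟨μ 0, h1.ne_zero 0, fun x hx => h2 0 x hx⟩

end avoid

section iso

variable {k : Type*} [Field k] [CharZero k] {n : ℕ} (B : Matrix (Fin n) (Fin n) k)

lemma vecMul_of_symm (ε : k) (hB : Bᵀ = ε • B) (v : Fin n → k) : B *ᵥ v = ε • (v ᵥ* B) := by
  have h : v ᵥ* Bᵀ = B *ᵥ v := vecMul_transpose B v
  rw [← h, hB, vecMul_smul]

/-- one step -/
lemma iso_step (hB0 : B.det ≠ 0) (hB : Bᵀ = -B ∨ Bᵀ = B) (F U : Submodule k (Fin n → k))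
    (h1 : F ⊓ U ≠ ⊥) (h2 : F ⊔ U ≠ ⊤) :
    ∃ T : Matrix (Fin n) (Fin n) k, Tᵀ * B * T = B ∧ (T.det = 1 ∨ Bᵀ = B ∧ T.det = -1) ∧
      F.map T.mulVecLin ⊓ U < F ⊓ U := by
  classical
  obtain ⟨w, hw, hw0⟩ := (Submodule.ne_bot_iff _).1 h1
  obtain ⟨c, hc0, hc⟩ := exists_functional _ h2
  have hBw : B *ᵥ w ≠ 0 := by
    intro h
    apply hw0
    have hu : IsUnit B := (isUnit_iff_isUnit_det B).2 hB0.isUnit
    apply (mulVec_injective_iff_isUnit.2 hu)
    rw [h, mulVec_zero]
  have hpair : ∀ v : Fin n → k, (v ᵥ* B) ⬝ᵥ w = (B *ᵥ w) ⬝ᵥ v := by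
    intro v
    rw [← dotProduct_mulVec, dotProduct_comm]
  rcases hB with hB | hB
  · -- the alternating case
    obtain ⟨v, hv1, hv2, -⟩ := avoid (linP c) (linP (B *ᵥ w)) 1 (lin_point c hc0)
      (lin_point _ hBw) ⟨0, by simp⟩
    rw [eval_linP] at hv1 hv2
    have hvF : v ∉ F ⊔ U := fun h => hv1 (hc v h)
    have hBv : B *ᵥ v = -(v ᵥ* B) := by
      have := vecMul_of_symm B (-1) (by rw [hB]; simp) v
      rw [this]; simp
    have hvv : v ⬝ᵥ B *ᵥ v = 0 := by
      have e1 : v ⬝ᵥ B *ᵥ v = -(v ⬝ᵥ B *ᵥ v) := by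
        conv_lhs => rw [hBv, dotProduct_neg, dotProduct_comm, ← dotProduct_mulVec]
      have e2 : (2 : k) * (v ⬝ᵥ B *ᵥ v) = 0 := by linear_combination e1
      exact (mul_eq_zero.1 e2).resolve_left two_ne_zero
    refine ⟨trv v (v ᵥ* B), trv_iso B v _ fun i j => ?_, Or.inl ?_, trv_inter F U v _ w hvF hw ?_⟩
    · rw [hvv, hBv, Pi.neg_apply]
      ring
    · rw [trv_det, ← dotProduct_mulVec, hvv, add_zero]
    · rw [hpair]; exact hv2
  · -- the symmetric case
    have hq : ∃ x, MvPolynomial.eval x (quadP B) ≠ 0 := by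
      haveI : Invertible (2 : k) := invertibleOfNonzero two_ne_zero
      obtain ⟨x, hx⟩ := LinearMap.BilinForm.exists_bilinForm_self_ne_zero
        (B := Matrix.toBilin' B) (by
          intro h
          apply hBw
          have h3 : B = 0 := by
            have := congrArg LinearMap.BilinForm.toMatrix' h
            rwa [LinearMap.BilinForm.toMatrix'_toBilin', map_zero] at this
          rw [h3, zero_mulVec]) ⟨fun x y => by
            simp only [RingHom.id_apply]
            rw [toBilin'_apply', toBilin'_apply', dotProduct_comm, dotProduct_mulVec,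
              ← mulVec_transpose, hB]⟩
      refine ⟨x, ?_⟩
      rw [eval_quadP, ← toBilin'_apply']
      exact hx
    obtain ⟨v, hv1, hv2, hv3⟩ := avoid (linP c) (linP (B *ᵥ w)) (quadP B) (lin_point c hc0)
      (lin_point _ hBw) hq
    rw [eval_linP] at hv1 hv2
    rw [eval_quadP] at hv3
    have hvF : v ∉ F ⊔ U := fun h => hv1 (hc v h)
    have hBv : B *ᵥ v = v ᵥ* B := by
      have := vecMul_of_symm B 1 (by rw [hB]; simp) v
      rw [this]; simp
    refine ⟨trv v ((-2 / (v ⬝ᵥ B *ᵥ v)) • (v ᵥ* B)), trv_iso B v _ fun i j => ?_,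
      Or.inr ⟨hB, ?_⟩, trv_inter F U v _ w hvF hw ?_⟩
    · simp only [Pi.smul_apply, smul_eq_mul]
      rw [hBv] at hv3 ⊢
      field_simp
      ring
    · rw [trv_det, smul_dotProduct, ← dotProduct_mulVec, smul_eq_mul]
      field_simp
      ring
    · rw [smul_dotProduct, hpair, smul_eq_mul]
      exact mul_ne_zero (div_ne_zero (neg_ne_zero.2 two_ne_zero) hv3) hv2

/-- general position by isometries -/
lemma iso_move (hB0 : B.det ≠ 0) (hB : Bᵀ = -B ∨ Bᵀ = B) (U : Submodule k (Fin n → k)) :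
    ∀ (d : ℕ) (F : Submodule k (Fin n → k)), finrank k (F ⊓ U : Submodule k (Fin n → k)) = d →
    ∃ T : Matrix (Fin n) (Fin n) k, Tᵀ * B * T = B ∧ (T.det = 1 ∨ Bᵀ = B ∧ T.det = -1) ∧
      (F.map T.mulVecLin ⊓ U = ⊥ ∨ F.map T.mulVecLin ⊔ U = ⊤) := by
  intro d
  induction d using Nat.strong_induction_on with
  | _ d ih =>
    intro F hd
    by_cases h1 : F ⊓ U = ⊥ ∨ F ⊔ U = ⊤
    · refine ⟨1, by simp, Or.inl det_one, ?_⟩
      rw [mulVecLin_one, Submodule.map_id]
      exact h1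
    · push Not at h1
      obtain ⟨T, hT1, hT2, hT3⟩ := iso_step B hB0 hB F U h1.1 h1.2
      obtain ⟨T', hT1', hT2', hT3'⟩ := ih _ (by rw [← hd]; exact Submodule.finrank_lt_finrank_of_lt hT3)
        (F.map T.mulVecLin) rfl
      refine ⟨T' * T, ?_, ?_, ?_⟩
      · rw [transpose_mul]
        have : Tᵀ * T'ᵀ * B * (T' * T) = Tᵀ * (T'ᵀ * B * T') * T := by
          simp only [Matrix.mul_assoc]
        rw [this, hT1', hT1]
      · rw [det_mul]
        rcases hT2 with h3 | ⟨h4, h3⟩ <;> rcases hT2' with h5 | ⟨h6, h5⟩ <;> rw [h3, h5]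
        · left; ring
        · right; exact ⟨h6, by ring⟩
        · right; exact ⟨h4, by ring⟩
        · left; ring
      · rw [mulVecLin_mul, Submodule.map_comp]
        exact hT3'

/-- a vector which is not isotropic -/
lemma exists_nonisotropic (hB0 : B.det ≠ 0) (hB : Bᵀ = B) (F : Submodule k (Fin n → k))
    (h : 2 * finrank k F ≠ n) : ∃ v : Fin n → k, v ⬝ᵥ B *ᵥ v ≠ 0 ∧
      (v ∈ F ∨ ∀ y ∈ F, v ⬝ᵥ B *ᵥ y = 0) := by
  classical
  by_contra hcon
  push Not at hcon
  obtain ⟨b, hb⟩ : ∃ b : LinearMap.BilinForm k (Fin n → k), b = Matrix.toBilin' B := ⟨_, rfl⟩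
  have hbx : ∀ x y, b x y = x ⬝ᵥ B *ᵥ y := fun x y => by rw [hb, toBilin'_apply']
  have hsymm : ∀ x y, b x y = b y x := by
    intro x y
    rw [hbx, hbx, dotProduct_comm, dotProduct_mulVec, ← mulVec_transpose, hB, dotProduct_comm]
  have hrefl : b.IsRefl := fun x y hxy => by rw [hsymm]; exact hxy
  have hnd : b.Nondegenerate := by
    rw [hb]
    exact LinearMap.BilinForm.nondegenerate_toBilin'_of_det_ne_zero' B hB0
  have hpol : ∀ G : Submodule k (Fin n → k), (∀ v ∈ G, b v v = 0) → G ≤ b.orthogonal G := by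
    intro G hG x hx
    rw [LinearMap.BilinForm.mem_orthogonal_iff]
    intro y hy
    have e1 := hG (x + y) (G.add_mem hx hy)
    have e0 : b (x + y) (x + y) = b x x + b x y + (b y x + b y y) := by
      simp only [map_add, LinearMap.add_apply]
      ring
    rw [e0, hG x hx, hG y hy, hsymm x y] at e1
    have e2 : (2 : k) * b y x = 0 := by linear_combination e1
    exact (mul_eq_zero.1 e2).resolve_left two_ne_zero
  have h1 : F ≤ b.orthogonal F := hpol F fun v hv => by
    by_contra hne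
    rw [hbx] at hne
    exact (hcon v hne).1 hv
  have h2 : b.orthogonal F ≤ b.orthogonal (b.orthogonal F) := hpol _ fun v hv => by
    by_contra hne
    rw [hbx] at hne
    obtain ⟨y, hy, hy2⟩ := (hcon v hne).2
    rw [LinearMap.BilinForm.mem_orthogonal_iff] at hv
    have h3 := hv y hy
    rw [hsymm, hbx] at h3
    exact hy2 h3
  have h3 := Submodule.finrank_mono h1
  have h4 := Submodule.finrank_mono h2
  have h5 := LinearMap.BilinForm.finrank_orthogonal hnd F
  have h6 := LinearMap.BilinForm.finrank_orthogonal hnd (b.orthogonal F)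
  have h7 := Submodule.finrank_le F
  rw [finrank_fin_fun] at h5 h6 h7
  omega

/-- general position by isometries of determinant `1` -/
lemma iso_move_det (hB0 : B.det ≠ 0) (F U : Submodule k (Fin n → k))
    (hB : Bᵀ = -B ∨ Bᵀ = B ∧ 2 * finrank k F ≠ n) :
    ∃ T : Matrix (Fin n) (Fin n) k, Tᵀ * B * T = B ∧ T.det = 1 ∧
      (F.map T.mulVecLin ⊓ U = ⊥ ∨ F.map T.mulVecLin ⊔ U = ⊤) := by
  classical
  obtain ⟨T, hT1, hT2, hT3⟩ := iso_move B hB0 (hB.imp id And.left) U _ F rfl
  by_cases hdet : T.det = 1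
  · exact ⟨T, hT1, hdet, hT3⟩
  rcases hT2 with hT2 | ⟨hBs, hT2⟩
  · exact absurd hT2 hdet
  have hr : 2 * finrank k F ≠ n := by
    rcases hB with hB | hB
    · exfalso
      have h1 : B = 0 := by
        have h2 : B = -B := by rw [← hB, hBs]
        ext i j
        have h3 := congrFun (congrFun h2 i) j
        rw [Matrix.neg_apply] at h3
        have h4 : (2 : k) * B i j = 0 := by linear_combination h3
        exact (mul_eq_zero.1 h4).resolve_left two_ne_zero
      -- then `n = 0`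
      rcases Nat.eq_zero_or_pos n with hn | hn
      · subst hn
        apply hdet
        exact det_isEmpty
      · apply hB0
        rw [h1]
        haveI : Nonempty (Fin n) := ⟨⟨0, hn⟩⟩
        exact det_zero
    · exact hB.2
  obtain ⟨v, hv, hvF⟩ := exists_nonisotropic B hB0 hBs F hr
  have hBv : B *ᵥ v = v ᵥ* B := by
    have := vecMul_of_symm B 1 (by rw [hBs]; simp) v
    rw [this]; simp
  obtain ⟨l, hl⟩ : ∃ l : Fin n → k, l = (-2 / (v ⬝ᵥ B *ᵥ v)) • (v ᵥ* B) := ⟨_, rfl⟩
  have hlv : l ⬝ᵥ v = -2 := by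
    rw [hl, smul_dotProduct, ← dotProduct_mulVec, smul_eq_mul]
    field_simp
  have hlF : ∀ y ∈ F, trv v l *ᵥ y ∈ F := by
    intro y hy
    rw [trv_mulVec]
    rcases hvF with h | h
    · exact F.add_mem hy (F.smul_mem _ h)
    · have : l ⬝ᵥ y = 0 := by
        rw [hl, smul_dotProduct, ← dotProduct_mulVec, h y hy, smul_zero]
      rw [this, zero_smul, add_zero]
      exact hy
  have hmap : F.map (trv v l).mulVecLin = F := by
    apply le_antisymm
    · rintro x ⟨y, hy, rfl⟩
      exact hlF y hy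
    · intro y hy
      refine ⟨trv v l *ᵥ y, hlF y hy, ?_⟩
      rw [mulVecLin_apply, trv_mulVec, trv_mulVec, dotProduct_add, dotProduct_smul, hlv]
      simp only [smul_eq_mul]
      funext i
      simp only [Pi.add_apply, Pi.smul_apply, smul_eq_mul]
      ring
  refine ⟨T * trv v l, ?_, ?_, ?_⟩
  · rw [transpose_mul]
    have : (trv v l)ᵀ * Tᵀ * B * (T * trv v l) = (trv v l)ᵀ * (Tᵀ * B * T) * trv v l := by
      simp only [Matrix.mul_assoc]
    rw [this, hT1]
    apply trv_iso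
    intro i j
    rw [hl]
    simp only [Pi.smul_apply, smul_eq_mul]
    rw [hBv] at hv ⊢
    field_simp
    ring
  · rw [det_mul, hT2, trv_det, hlv]; ring
  · rw [mulVecLin_mul, Submodule.map_comp, hmap]
    exact hT3

/-- The minors. -/
theorem iso_minor {r s m : ℕ} (hB0 : B.det ≠ 0) (hB : Bᵀ = -B ∨ Bᵀ = B ∧ 2 * r ≠ n)
    (ω : Fin r → Fin n → k) (hω : LinearIndependent k ω) (μ : Fin s → Fin n → k)
    (hμ : LinearIndependent k μ) (hr : m ≤ r) (hs : m ≤ s) :
    ∃ T : Matrix (Fin n) (Fin n) k, Tᵀ * B * T = B ∧ T.det = 1 ∧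
      ∃ (f : Fin m → Fin s) (g : Fin m → Fin r),
        (Matrix.of fun i j : Fin m => μ (f i) ⬝ᵥ T *ᵥ ω (g j)).det ≠ 0 := by
  classical
  obtain ⟨F, hF⟩ : ∃ F : Submodule k (Fin n → k), F = Submodule.span k (Set.range ω) := ⟨_, rfl⟩
  have hFr : finrank k F = r := by
    rw [hF, finrank_span_eq_card hω, Fintype.card_fin]
  have hωF : ∀ j, ω j ∈ F := fun j => by rw [hF]; exact Submodule.subset_span ⟨j, rfl⟩
  obtain ⟨U, hU⟩ : ∃ U : Submodule k (Fin n → k), ∀ x, x ∈ U ↔ ∀ i, μ i ⬝ᵥ x = 0 := by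
    refine ⟨LinearMap.ker (Matrix.of μ).mulVecLin, fun x => ?_⟩
    rw [LinearMap.mem_ker, mulVecLin_apply, funext_iff]
    rfl
  obtain ⟨T, hT1, hT2, hT3⟩ := iso_move_det B hB0 F U (by rw [hFr]; exact hB)
  refine ⟨T, hT1, hT2, ?_⟩
  have hinj : ∀ y, T *ᵥ y = 0 → y = 0 := by
    intro y hy
    have hu : IsUnit T := (isUnit_iff_isUnit_det T).2 (by rw [hT2]; exact isUnit_one)
    apply (mulVec_injective_iff_isUnit.2 hu)
    rw [hy, mulVec_zero]
  rcases hT3 with h | h
  · -- the vectors are independent modulo `U`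
    by_contra hcon
    push Not at hcon
    obtain ⟨v, hv0, hv⟩ := exists_dep (fun (j : Fin m) (i : Fin s) =>
      μ i ⬝ᵥ T *ᵥ ω (Fin.castLE hr j)) (fun f => by
        have h1 := hcon f (Fin.castLE hr)
        rw [← det_transpose] at h1
        exact h1)
    apply hv0
    have h2 : T *ᵥ (∑ j, v j • ω (Fin.castLE hr j)) ∈ F.map T.mulVecLin ⊓ U := by
      refine ⟨⟨_, Submodule.sum_mem _ fun j _ => F.smul_mem _ (hωF _), rfl⟩, ?_⟩
      change _ ∈ U
      rw [hU]
      intro i
      rw [mulVec_sum, dotProduct_sum, ← hv i]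
      refine Finset.sum_congr rfl fun j _ => ?_
      rw [mulVec_smul, dotProduct_smul, smul_eq_mul]
    rw [h, Submodule.mem_bot] at h2
    have h3 := hinj _ h2
    have h4 : LinearIndependent k fun j : Fin m => ω (Fin.castLE hr j) :=
      hω.comp _ (Fin.castLE_injective hr)
    rw [Fintype.linearIndependent_iff] at h4
    funext j
    exact h4 v h3 j
  · -- the functionals are independent on `F`
    by_contra hcon
    push Not at hcon
    obtain ⟨v, hv0, hv⟩ := exists_dep (fun (i : Fin m) (j : Fin r) =>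
      μ (Fin.castLE hs i) ⬝ᵥ T *ᵥ ω j) (fun g => hcon (Fin.castLE hs) g)
    apply hv0
    have h2 : ∀ x : Fin n → k, (∑ i, v i • μ (Fin.castLE hs i)) ⬝ᵥ x = 0 := by
      intro x
      have hx : x ∈ F.map T.mulVecLin ⊔ U := by rw [h]; trivial
      obtain ⟨y, ⟨z, hz, rfl⟩, u, hu, rfl⟩ := Submodule.mem_sup.1 hx
      clear hx
      rw [dotProduct_add]
      have e1 : (∑ i, v i • μ (Fin.castLE hs i)) ⬝ᵥ u = 0 := by
        rw [sum_dotProduct]
        refine Finset.sum_eq_zero fun i _ => ?_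
        rw [smul_dotProduct, (hU u).1 hu, smul_zero]
      rw [e1, add_zero, mulVecLin_apply]
      rw [hF] at hz
      induction hz using Submodule.span_induction with
      | mem z hz =>
        obtain ⟨j, rfl⟩ := hz
        rw [sum_dotProduct, ← hv j]
        refine Finset.sum_congr rfl fun i _ => ?_
        rw [smul_dotProduct, smul_eq_mul]
      | zero => rw [mulVec_zero, dotProduct_zero]
      | add a b _ _ ha hb =>
        rw [mulVec_add, dotProduct_add, ha, hb, add_zero]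
      | smul c a _ ha =>
        rw [mulVec_smul, dotProduct_smul, ha, smul_zero]
    have h3 : (∑ i, v i • μ (Fin.castLE hs i)) = 0 := by
      funext t
      have := h2 (Pi.single t 1)
      rwa [dotProduct_single, mul_one] at this
    have h4 : LinearIndependent k fun j : Fin m => μ (Fin.castLE hs j) :=
      hμ.comp _ (Fin.castLE_injective hs)
    rw [Fintype.linearIndependent_iff] at h4
    funext j
    exact h4 v h3 j

end iso

end Pool.Agent.D0H58.AD
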