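import Pool.Agent.D0H58.AD.Tens
import Pool.Agent.D0H58.HS.Null

/-! The certificate. -/

set_option autoImplicit false
set_option linter.unusedSectionVars false

universe u

open MvPolynomial

namespace Pool.Agent.D0H58.AD

open Pool.Agent.D0H58.OR (pr pr_add pr_smul lift_poly exists_dep)
open Pool.Agent.D0H58.HS (certificate3 coeff_lift)

/-- rows with a nonzero minor are linearly independent -/
lemma indep_of_minor {k : Type*} [Field k] {g n : ℕ} (μ : Fin g → Fin n → k) (s : Fin g → Fin n)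
    (h : (Matrix.of fun i j : Fin g => μ i (s j)).det ≠ 0) : LinearIndependent k μ := by
  have h1 := (Matrix.linearIndependent_rows_iff_isUnit
    (A := Matrix.of fun i j : Fin g => μ i (s j))).2 (by
      rw [Matrix.isUnit_iff_isUnit_det]; exact h.isUnit)
  exact LinearIndependent.of_comp (LinearMap.funLeft k k s) h1

/-- the data at a differential prime ideal -/
structure Spec {E : Type u} {L : Type*} [Field E] [Fintype L] {n q : ℕ} (d : Dat E L n q) (r : ℕ)
    (R S : Type u) [CommRing R] [CommRing S] where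
  /-- the inclusion -/
  iR : R →+* E
  hiR : Function.Injective iR
  /-- the reduction -/
  π : R →+* S
  /-- the data over `R` -/
  dR : Dat R L n q
  hdR : dR.map iR = d
  /-- the functionals -/
  Z : Set (Fin n → S)
  hvol : ∀ (g : Fin r → Fin q) (u : Fin r → Fin n → S), (∀ i, u i ∈ Z) →
    pr u (vol fun j => (dR.map π).ω (g j)) = 0

/-- the condition on constants and derivations -/
def Spec.Ok {E : Type u} {L : Type*} [Field E] [Fintype L] {n q r : ℕ} {d : Dat E L n q}
    {R S : Type u} [CommRing R] [CommRing S] (X : Spec d r R S)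
    (C : Finset E) (Δ : Finset (Derivation ℤ E E)) : Prop :=
  (∀ c ∈ C, ∃ x, X.iR x = c) ∧ ∀ D ∈ Δ, ∃ (DR : Derivation ℤ R R) (DS : Derivation ℤ S S),
    (∀ x, X.iR (DR x) = D (X.iR x)) ∧ (∀ x, X.π (DR x) = DS (X.π x)) ∧
    ∀ u ∈ X.Z, dual (X.dR.map X.π) DS u ∈ X.Z

lemma Spec.Ok.mono {E : Type u} {L : Type*} [Field E] [Fintype L] {n q r : ℕ} {d : Dat E L n q}
    {R S : Type u} [CommRing R] [CommRing S] {X : Spec d r R S}
    {C C' : Finset E} {Δ Δ' : Finset (Derivation ℤ E E)}
    (h : X.Ok C' Δ') (hC : C ⊆ C') (hΔ : Δ ⊆ Δ') : X.Ok C Δ :=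
  ⟨fun c hc => h.1 c (hC hc), fun D hD => h.2 D (hΔ hD)⟩

/-- all generated tensors are killed by the functionals -/
lemma gen_good {E : Type u} {L : Type*} [Field E] [Fintype L] {n q r : ℕ} (d : Dat E L n q)
    (T : (Fin r → Fin n) → E) (hT : Gen d T) : ∃ (C : Finset E) (Δ : Finset (Derivation ℤ E E)),
      ∀ (R S : Type u) [CommRing R] [CommRing S] (X : Spec d r R S), X.Ok C Δ →
        ∃ TR : (Fin r → Fin n) → R, (∀ s, X.iR (TR s) = T s) ∧
          ∀ u : Fin r → Fin n → S, (∀ i, u i ∈ X.Z) → pr u (fun s => X.π (TR s)) = 0 := by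
  classical
  induction hT with
  | vol g =>
    refine ⟨∅, ∅, fun R S _ _ X _ => ⟨vol fun j => X.dR.ω (g j), fun s => ?_, fun u hu => ?_⟩⟩
    · rw [vol_map]
      have h := X.hdR
      conv_rhs => rw [← h]
      rfl
    · rw [← X.hvol g u hu]
      congr 1
      funext s
      exact vol_map _ _ s
  | add T T' _ _ h1 h2 =>
    obtain ⟨C, Δ, h1⟩ := h1
    obtain ⟨C', Δ', h2⟩ := h2
    refine ⟨C ∪ C', Δ ∪ Δ', fun R S _ _ X hX => ?_⟩
    obtain ⟨T1, h3, h4⟩ := h1 R S X (hX.mono Finset.subset_union_left Finset.subset_union_left)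
    obtain ⟨T2, h5, h6⟩ := h2 R S X (hX.mono Finset.subset_union_right Finset.subset_union_right)
    refine ⟨T1 + T2, fun s => ?_, fun u hu => ?_⟩
    · rw [Pi.add_apply, map_add, h3, h5]; rfl
    · have : (fun s => X.π ((T1 + T2) s)) = (fun s => X.π (T1 s)) + fun s => X.π (T2 s) := by
        funext s; rw [Pi.add_apply, map_add]; rfl
      rw [this, pr_add, h4 u hu, h6 u hu, add_zero]
  | smul c T _ h =>
    obtain ⟨C, Δ, h⟩ := h
    refine ⟨insert c C, Δ, fun R S _ _ X hX => ?_⟩
    obtain ⟨T1, h3, h4⟩ := h R S X (hX.mono (Finset.subset_insert _ _) subset_rfl)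
    obtain ⟨c', hc'⟩ := hX.1 c (Finset.mem_insert_self _ _)
    refine ⟨c' • T1, fun s => ?_, fun u hu => ?_⟩
    · rw [Pi.smul_apply, smul_eq_mul, map_mul, h3, hc']; rfl
    · have : (fun s => X.π ((c' • T1) s)) = X.π c' • fun s => X.π (T1 s) := by
        funext s; rw [Pi.smul_apply, smul_eq_mul, map_mul]; rfl
      rw [this, pr_smul, h4 u hu, mul_zero]
  | nab δ T _ h =>
    obtain ⟨C, Δ, h⟩ := h
    refine ⟨C, insert δ Δ, fun R S _ _ X hX => ?_⟩
    obtain ⟨T1, h3, h4⟩ := h R S X (hX.mono subset_rfl (Finset.subset_insert _ _))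
    obtain ⟨DR, DS, h5, h6, h7⟩ := hX.2 δ (Finset.mem_insert_self _ _)
    refine ⟨nab X.dR DR T1, fun s => ?_, fun u hu => ?_⟩
    · rw [nab_map X.iR X.dR DR δ h5, X.hdR]
      congr 1
      funext s
      exact h3 s
    · have e1 : (fun s => X.π (nab X.dR DR T1 s)) = nab (X.dR.map X.π) DS (fun s => X.π (T1 s)) := by
        funext s
        exact nab_map X.π X.dR DR DS h6 T1 s
      have e2 := pr_nab (X.dR.map X.π) DS u (fun s => X.π (T1 s))
      have e3 : ∀ i, pr (Function.update u i (dual (X.dR.map X.π) DS (u i)))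
          (fun s => X.π (T1 s)) = 0 := by
        intro i
        apply h4
        intro j
        by_cases hj : j = i
        · subst hj
          rw [Function.update_self]
          exact h7 _ (hu j)
        · rw [Function.update_of_ne hj]
          exact hu j
      rw [h4 u hu, map_zero, Finset.sum_eq_zero fun i _ => e3 i, add_zero] at e2
      rw [e1, ← e2]

section polys

variable {A : Type*} [CommRing A] {n r s : ℕ}

/-- the value of a tensor at some of the functionals, as a polynomial -/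
noncomputable def valP (f : Fin r → Fin s) (T : (Fin r → Fin n) → A) :
    MvPolynomial (Fin s × Fin n) A :=
  ∑ σ, C (T σ) * ∏ i, X (f i, σ i)

/-- a minor -/
noncomputable def detP (A : Type*) [CommRing A] {n s : ℕ} (J : Fin s → Fin n) :
    MvPolynomial (Fin s × Fin n) A :=
  (Matrix.of fun i j : Fin s => (X (i, J j) : MvPolynomial (Fin s × Fin n) A)).det

variable {B : Type*} [CommRing B] (φ : A →+* B) (pt : Fin s × Fin n → B)

lemma eval_valP (f : Fin r → Fin s) (T : (Fin r → Fin n) → A) :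
    eval₂ φ pt (valP f T) = pr (fun i t => pt (f i, t)) (fun σ => φ (T σ)) := by
  unfold valP pr
  simp

lemma eval_detP (J : Fin s → Fin n) :
    eval₂ φ pt (detP A J) = (Matrix.of fun i j : Fin s => pt (i, J j)).det := by
  have h : ∀ Q, eval₂ φ pt Q = eval₂Hom φ pt Q := fun Q => rfl
  unfold detP
  rw [h, RingHom.map_det]
  congr 1
  ext1 i j
  simp

lemma map_detP (J : Fin s → Fin n) : map φ (detP A J) = detP B J := by
  unfold detP
  rw [RingHom.map_det]
  congr 1
  ext1 i j
  simp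

end polys

/-- the equations -/
def eqs {E L : Type*} [Field E] [Fintype L] {n q s : ℕ} (d : Dat E L n q) (r : ℕ)
    (Φ : Set (MvPolynomial (Fin s × Fin n) E)) : Set (MvPolynomial (Fin s × Fin n) E) :=
  {Q | Q ∈ Φ ∨ ∃ T : (Fin r → Fin n) → E, Gen d T ∧ ∃ f : Fin r → Fin s, Q = valP f T}

/-- The condition. -/
def Big {k L : Type*} [Field k] [Fintype L] {n q : ℕ} (d : Dat k L n q) (r s : ℕ)
    (Φ : Set (MvPolynomial (Fin s × Fin n) k)) : Prop :=
  ∀ μ : Fin s → Fin n → k, LinearIndependent k μ →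
    (∀ P ∈ Φ, eval (fun x => μ x.1 x.2) P = 0) →
    ∃ T : (Fin r → Fin n) → k, Gen d T ∧ ∃ f : Fin r → Fin s, pr (fun i => μ (f i)) T ≠ 0

/-- certificates over a finitely generated field -/
lemma cert_of_big {k E L : Type*} [Field k] [IsAlgClosed k] [Field E] [Algebra E k] [Fintype L]
    {n q r s : ℕ} (d : Dat E L n q) (Φ : Set (MvPolynomial (Fin s × Fin n) E))
    (h : Big (d.map (algebraMap E k)) r s (map (algebraMap E k) '' Φ)) (J : Fin s → Fin n) :
    ∃ e : ℕ, (detP E J) ^ e ∈ Ideal.span (eqs d r Φ) := by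
  classical
  apply certificate3 (k := k)
  intro pt hpt
  by_contra hne
  rw [eval_detP] at hne
  have hμi := indep_of_minor (fun i t => pt (i, t)) J hne
  obtain ⟨T, hT, f, hne2⟩ := h (fun i t => pt (i, t)) hμi (by
    rintro _ ⟨P, hP, rfl⟩
    have h1 := hpt P (Or.inl hP)
    rw [eval_map]
    exact h1)
  apply hne2
  refine pr_gen d _ (fun T₀ hT₀ => ?_) T hT
  have h1 := hpt _ (Or.inr ⟨T₀, hT₀, f, rfl⟩)
  rw [eval_valP] at h1
  exact h1

/-- transfer to positive characteristic -/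
lemma transfer {E : Type u} {L : Type*} [Field E] [Fintype L] {n q r s : ℕ} (d : Dat E L n q)
    (Φ : Set (MvPolynomial (Fin s × Fin n) E)) (x : MvPolynomial (Fin s × Fin n) E)
    (hx : x ∈ Ideal.span (eqs d r Φ)) :
    ∃ (C0 : Finset E) (Δ : Finset (Derivation ℤ E E)),
      ∀ (R S : Type u) [CommRing R] [CommRing S] (Y : Spec d r R S)
        (pt : Fin s × Fin n → S), Y.Ok C0 Δ → (∀ i, (fun t => pt (i, t)) ∈ Y.Z) →
        (∀ P ∈ Φ, ∃ y : MvPolynomial (Fin s × Fin n) R, map Y.iR y = P ∧ eval₂ Y.π pt y = 0) →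
        ∃ y : MvPolynomial (Fin s × Fin n) R, map Y.iR y = x ∧ eval₂ Y.π pt y = 0 := by
  classical
  induction hx using Submodule.span_induction with
  | mem x hx =>
    rcases hx with hx | ⟨T, hT, f, rfl⟩
    · exact ⟨∅, ∅, fun R S _ _ Y pt _ _ h2 => h2 x hx⟩
    · obtain ⟨C1, Δ, h⟩ := gen_good d T hT
      refine ⟨C1, Δ, fun R S _ _ Y pt hY h1 _ => ?_⟩
      obtain ⟨TR, h4, h5⟩ := h R S Y hY
      refine ⟨valP f TR, ?_, ?_⟩
      · unfold valP
        rw [map_sum]
        refine Finset.sum_congr rfl fun σ _ => ?_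
        rw [map_mul, map_C, map_prod, h4]
        simp
      · rw [eval_valP]
        exact h5 _ fun i => h1 (f i)
  | zero => exact ⟨∅, ∅, fun R S _ _ Y pt _ _ _ => ⟨0, map_zero _, by simp⟩⟩
  | add x y _ _ hx hy =>
    obtain ⟨C1, Δ, h1⟩ := hx
    obtain ⟨C', Δ', h2⟩ := hy
    refine ⟨C1 ∪ C', Δ ∪ Δ', fun R S _ _ Y pt hY h3 h4 => ?_⟩
    obtain ⟨x', hx1, hx2⟩ := h1 R S Y pt
      (hY.mono Finset.subset_union_left Finset.subset_union_left) h3 h4
    obtain ⟨y', hy1, hy2⟩ := h2 R S Y pt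
      (hY.mono Finset.subset_union_right Finset.subset_union_right) h3 h4
    exact ⟨x' + y', by rw [map_add, hx1, hy1], by rw [eval₂_add, hx2, hy2, add_zero]⟩
  | smul c x _ hx =>
    obtain ⟨C1, Δ, h1⟩ := hx
    refine ⟨C1 ∪ c.support.image fun m => coeff m c, Δ, fun R S _ _ Y pt hY h3 h4 => ?_⟩
    obtain ⟨x', hx1, hx2⟩ := h1 R S Y pt (hY.mono Finset.subset_union_left subset_rfl) h3 h4
    obtain ⟨c', hc'⟩ := lift_poly Y.iR c (coeff_lift Y.iR c fun c hc =>
      hY.1 _ (Finset.mem_union_right _ hc))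
    exact ⟨c' * x', by rw [map_mul, hc', hx1, smul_eq_mul], by rw [eval₂_mul, hx2, mul_zero]⟩

/-- The contradiction at a differential prime ideal. -/
lemma big_good {k E : Type u} {L : Type*} [Field k] [IsAlgClosed k] [Field E] [Algebra E k]
    [Fintype L] {n q r s : ℕ} (d : Dat E L n q) (Φ : Set (MvPolynomial (Fin s × Fin n) E))
    (h : Big (d.map (algebraMap E k)) r s (map (algebraMap E k) '' Φ)) :
    ∃ (C : Finset E) (Δ : Finset (Derivation ℤ E E)), ∀ (R S K : Type u) [CommRing R] [CommRing S]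
      [IsDomain S] [Field K] (φ : S →+* K) (Y : Spec d r R S) (pt : Fin s × Fin n → S),
        (∀ i, (fun t => pt (i, t)) ∈ Y.Z) → LinearIndependent K (fun i t => φ (pt (i, t))) →
        (∀ P ∈ Φ, ∃ y : MvPolynomial (Fin s × Fin n) R, map Y.iR y = P ∧ eval₂ Y.π pt y = 0) →
        Y.Ok C Δ → False := by
  classical
  have hcert := fun (J : Fin s → Fin n) => cert_of_big d Φ h J
  choose e he using hcert
  have htr := fun (J : Fin s → Fin n) => transfer d Φ _ (he J)
  choose C Δ hCΔ using htr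
  refine ⟨Finset.univ.biUnion C, Finset.univ.biUnion Δ, ?_⟩
  intro R S K _ _ _ _ φ Y pt hZ hli hΦ hY
  have hmin : ∃ J : Fin s → Fin n, (Matrix.of fun i j => φ (pt (i, J j))).det ≠ 0 := by
    by_contra hcon
    push Not at hcon
    obtain ⟨v, hv0, hv⟩ := exists_dep (fun i t => φ (pt (i, t))) hcon
    apply hv0
    rw [Fintype.linearIndependent_iff] at hli
    funext i
    refine hli v ?_ i
    funext t
    rw [Finset.sum_apply]
    exact hv t
  obtain ⟨J, hJ⟩ := hmin
  obtain ⟨y, hy1, hy2⟩ := hCΔ J R S Y pt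
    (hY.mono (Finset.subset_biUnion_of_mem C (Finset.mem_univ J))
      (Finset.subset_biUnion_of_mem Δ (Finset.mem_univ J))) hZ hΦ
  have h1 : y = detP R J ^ e J := by
    apply MvPolynomial.map_injective Y.iR Y.hiR
    rw [hy1, map_pow, map_detP]
  rw [h1, eval₂_pow] at hy2
  have h2 : eval₂ Y.π pt (detP R J) = 0 := by
    by_contra hne
    exact pow_ne_zero _ hne hy2
  rw [eval_detP] at h2
  apply hJ
  have h3 := congrArg φ h2
  rw [map_zero, RingHom.map_det] at h3
  exact h3

end Pool.Agent.D0H58.AD
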